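import Mathlib
import Pool.Agent.N726.BG.Qrc
import Pool.Agent.N726.BG.Sl2
import Pool.Agent.N726.BG.Sln

/-!
# Quasirandom subgroups and the group-theoretic approach to matrix multiplication

The group-theoretic approach of Cohn and Umans to the multiplication of `n × n` matrices in
`n ^ (2 + o(1))` operations looks for finite groups `G` with families `A i, B i, C i` of subsets
which satisfy the simultaneous triple product property (Cohn, Kleinberg, Szegedy and Umans).  Such
families give the inequality `∑ (|A i| |B i| |C i|) ^ (ω / 3) ≤ ∑ d j ^ ω` for the exponent `ω` of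
matrix multiplication, with the character degrees `d j` of `G`; so `G` can show `ω < τ` only if it
fails for `ω = τ`.

Gowers calls a group quasirandom if its nontrivial complex representations have large dimension.
Blasiak, Cohn, Grochow, Pratt and Umans showed that quasirandom groups `G` with few conjugacy
classes, such as the groups of Lie type, cannot show `ω = 2`.  Here the group `G` is arbitrary and
only a subgroup is quasirandom: if `G` has ANY nontrivial subgroup `H` (normal or not, of any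
index) whose nontrivial representations have dimension at least `D`, then
`(D / 4) ^ (ω / 6) ∑ (|A i| |B i| |C i|) ^ (ω / 3) ≤ k(G) ^ (ω / 2 - 1) ∑ d j ^ ω`
for all families and all `ω ≥ 2`, with the class number `k(G)`.  For `ω = 2` this reads
`∑ (|A i| |B i| |C i|) ^ (2 / 3) ≤ (4 / D) ^ (1 / 3) |G|`.  So if `G` shows `ω < τ` then
`D ≤ 4 k(G) ^ (3 - 6 / τ)` (`dimension_le`), and groups which show `ω = 2` have only subgroups
with nontrivial representations of dimension `k(G) ^ o(1)`.  For example (`special_linear`) this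
holds for `D ≤ q ^ (n - 1) / 2` if there is a nontrivial homomorphism from `SL_n(q)` to `G`.

Circuits: over the complex numbers `S(MM_m) ≤ C n ^ (τ / 2)` with `n = m ^ 2` holds for all `τ > ω`,
and almost linear circuits mean `ω = 2`.  The group-theoretic approach is one of the two known ways
towards such circuits.

Main steps of the proof.
* `N726.BG.Mix`: the mixing inequality of Babai, Nikolov and Pyber in quasirandom groups.
* `N726.BG.Blk`: in a mixing group the sets `X = ⋃ A i⁻¹ B i`, `Y = ⋃ B i⁻¹ C i`,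
  `Z = ⋃ C i⁻¹ A i` satisfy `|X| |Y| |Z| D ≤ 4 |H| ^ 3`, because the only solutions of `x y z = 1`
  are the obvious ones.
* `N726.BG.Tra`: the same for the parts of `X`, `Y`, `Z` in all triples of cosets
  `s⁻¹ H t`, `t⁻¹ H r`, `r⁻¹ H s`.
* `N726.BG.Avg`: averaging over all triples of cosets.
* `N726.BG.Chr`, `N726.BG.Pwr`: `k(G)` and `∑ d j ^ ω`.
* `N726.BG.Sl2`, `N726.BG.Sln`: the representations of `SL_n(q)` (Frobenius, Landazuri and Seitz).

Idea and assembly: helper726.  Parts of the formal proof: helper157 (mixing), helper8 (blocks),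
helper364 (cosets), helper99 (averaging), helper482 and helper427 (representations of `SL_n(q)`),
helper769 (classes and matrix blocks), helper82 (power means).
-/

namespace Pool.Agent.Results.MP_e72dc0_lc.QuasirandomSubgroups

open Finset

/-- The simultaneous triple product property of Cohn, Kleinberg, Szegedy and Umans. -/
def STPP {G : Type} [Group G] {I : Type} (A B C : I → Finset G) : Prop :=
  ∀ i j k, ∀ a ∈ A i, ∀ a' ∈ A j, ∀ b ∈ B j, ∀ b' ∈ B k, ∀ c ∈ C k, ∀ c' ∈ C i,
    a * a'⁻¹ * (b * b'⁻¹) * (c * c'⁻¹) = 1 → i = j ∧ j = k ∧ a = a' ∧ b = b' ∧ c = c'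

/-- The `d j` are the dimensions of the complex irreducible representations of `G`: all are
positive and the group algebra of `G` over the complex numbers is isomorphic to the product of the
algebras of `d j × d j` matrices. -/
def IrrepDims (G : Type) [Group G] {n : ℕ} (d : Fin n → ℕ) : Prop :=
  (∀ j, 0 < d j) ∧ Nonempty (MonoidAlgebra ℂ G ≃ₐ[ℂ] ∀ j, Matrix (Fin (d j)) (Fin (d j)) ℂ)

/-- All complex representations of `H` of dimension less than `D` are trivial. -/
def Quasirandom (H : Type) [Group H] (D : ℕ) : Prop :=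
  ∀ n < D, ∀ ρ : H →* Matrix (Fin n) (Fin n) ℂ, ρ = 1

theorem result (G : Type) [Group G] [Finite G] (H : Subgroup G) (hH : H ≠ ⊥) (D : ℕ)
    (hD : Quasirandom H D) (I : Type) [Fintype I] (A B C : I → Finset G) (hS : STPP A B C)
    (n : ℕ) (d : Fin n → ℕ) (hd : IrrepDims G d) (ω : ℝ) (hω : 2 ≤ ω) :
    ((D : ℝ) / 4) ^ (ω / 6) *
        ∑ i, (((A i).card * (B i).card * (C i).card : ℕ) : ℝ) ^ (ω / 3) ≤
      (Nat.card (ConjClasses G) : ℝ) ^ (ω / 2 - 1) * ∑ j, (d j : ℝ) ^ ω := by
  rw [mul_comm]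
  exact N726.BG.qr_classes H hH hD hS hd.2 hω

/-- The degrees exist. -/
theorem exists_irrepDims (G : Type) [Group G] [Finite G] :
    ∃ (k : ℕ) (d : Fin k → ℕ), IrrepDims G d := by
  have h1 : NeZero (Nat.card G : ℂ) := ⟨Nat.cast_ne_zero.2 Nat.card_pos.ne'⟩
  obtain ⟨n, d, hd, e⟩ :=
    IsSemisimpleRing.exists_algEquiv_pi_matrix_of_isAlgClosed ℂ (MonoidAlgebra ℂ G)
  exact ⟨n, d, fun i => Nat.pos_of_ne_zero (hd i).out, e⟩

/-- A group which shows `ω < τ` has no very quasirandom subgroups. -/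
theorem dimension_le (G : Type) [Group G] [Finite G] (H : Subgroup G) (hH : H ≠ ⊥) (D : ℕ)
    (hD : Quasirandom H D) (I : Type) [Fintype I] (A B C : I → Finset G) (hS : STPP A B C)
    (n : ℕ) (d : Fin n → ℕ) (hd : IrrepDims G d) (τ : ℝ) (hτ : 2 ≤ τ)
    (h : ∑ j, (d j : ℝ) ^ τ ≤
      ∑ i, (((A i).card * (B i).card * (C i).card : ℕ) : ℝ) ^ (τ / 3)) :
    (D : ℝ) ≤ 4 * (Nat.card (ConjClasses G) : ℝ) ^ (3 - 6 / τ) := by
  have h1 := result G H hH D hD I A B C hS n d hd τ hτ
  have hn : 0 < n := by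
    by_contra h0
    have h0' : n = 0 := by omega
    subst h0'
    obtain ⟨e⟩ := hd.2
    have h2 : (1 : MonoidAlgebra ℂ G) = 0 := e.injective (Subsingleton.elim _ _)
    exact one_ne_zero h2
  have hpos : 0 < ∑ j, (d j : ℝ) ^ τ := by
    refine Finset.sum_pos (fun j _ => Real.rpow_pos_of_pos (by exact_mod_cast hd.1 j) _)
      ⟨⟨0, hn⟩, Finset.mem_univ _⟩
  have hk : (0 : ℝ) ≤ Nat.card (ConjClasses G) := Nat.cast_nonneg _
  have hτ0 : (0 : ℝ) < τ := by linarith
  have hD0 : (0 : ℝ) ≤ (D : ℝ) / 4 := by positivity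
  have h3 : ((D : ℝ) / 4) ^ (τ / 6) ≤ (Nat.card (ConjClasses G) : ℝ) ^ (τ / 2 - 1) := by
    have h4 : ((D : ℝ) / 4) ^ (τ / 6) * ∑ j, (d j : ℝ) ^ τ ≤
        (Nat.card (ConjClasses G) : ℝ) ^ (τ / 2 - 1) * ∑ j, (d j : ℝ) ^ τ :=
      (mul_le_mul_of_nonneg_left h (Real.rpow_nonneg hD0 _)).trans h1
    exact le_of_mul_le_mul_right h4 hpos
  have h5 : (((D : ℝ) / 4) ^ (τ / 6)) ^ (6 / τ) ≤
      ((Nat.card (ConjClasses G) : ℝ) ^ (τ / 2 - 1)) ^ (6 / τ) :=
    Real.rpow_le_rpow (Real.rpow_nonneg hD0 _) h3 (by positivity)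
  rw [← Real.rpow_mul hD0, ← Real.rpow_mul hk] at h5
  have e1 : τ / 6 * (6 / τ) = 1 := by field_simp
  have e2 : (τ / 2 - 1) * (6 / τ) = 3 - 6 / τ := by field_simp; ring
  rw [e1, e2, Real.rpow_one] at h5
  linarith

/-- Images of special linear groups. -/
theorem special_linear (K : Type) [Field K] [Fintype K] (m : ℕ) (hm : 2 ≤ m)
    (G : Type) [Group G] [Finite G] (f : Matrix.SpecialLinearGroup (Fin m) K →* G) (hf : f ≠ 1)
    (D : ℕ) (hD : 2 * D ≤ Fintype.card K ^ (m - 1))
    (I : Type) [Fintype I] (A B C : I → Finset G) (hS : STPP A B C)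
    (n : ℕ) (d : Fin n → ℕ) (hd : IrrepDims G d) (ω : ℝ) (hω : 2 ≤ ω) :
    ((D : ℝ) / 4) ^ (ω / 6) *
        ∑ i, (((A i).card * (B i).card * (C i).card : ℕ) : ℝ) ^ (ω / 3) ≤
      (Nat.card (ConjClasses G) : ℝ) ^ (ω / 2 - 1) * ∑ j, (d j : ℝ) ^ ω := by
  classical
  have hq : 1 < Fintype.card K := Fintype.one_lt_card
  have hqr : Quasirandom (Matrix.SpecialLinearGroup (Fin m) K) D := by
    intro k hk ρ
    have h1 : 1 ≤ Fintype.card K ^ (m - 1) := Nat.one_le_pow _ _ (by omega)
    rcases Nat.lt_or_ge m 3 with h3 | h3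
    · have h4 : m = 2 := by omega
      subst h4
      refine N726.BG.sl2 K k ?_ ρ
      simp only [Nat.add_one_sub_one, pow_one] at hD
      omega
    · refine N726.BG.sln K m k h3 ?_ ρ
      omega
  refine result G f.range ?_ D (N726.BG.Quasirandom.range f hqr) I A B C hS n d hd ω hω
  intro h
  apply hf
  ext x
  have h1 : f x ∈ f.range := ⟨x, rfl⟩
  rw [h, Subgroup.mem_bot] at h1
  simpa using h1

end Pool.Agent.Results.MP_e72dc0_lc.QuasirandomSubgroups
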